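import Pool.Agent.P.MP_923088_al.AG.Fin

/-! For almost every `K`-tuple in SU(2) the gap on polynomials of degree `D` is at least
`c / log (D + 2) ^ (10 / √K)`. -/

namespace Pool.Agent.Results.MP_923088_al.AlmostGap

open Pool.Agent.P.MP_923088_al MeasureTheory

theorem result [MeasurableSpace SU2] [BorelSpace SU2] (m : Measure SU2) [m.IsHaarMeasure]
    [IsProbabilityMeasure m] (K : ℕ) (hK : 100 ≤ K) :
    ∀ᵐ g ∂(Measure.pi fun _ : Fin K => m), ∀ S : Finset SU2, (S : Set SU2) = Set.range g →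
      ∃ c : ℝ, 0 < c ∧ ∀ (D : ℕ) (p : MvPolynomial (Fin 2 × Fin 2) ℂ), p.totalDegree ≤ D →
        ∫ x, polyFun p x ∂m = 0 →
        Real.sqrt (∫ x, ‖avg S (polyFun p) x‖ ^ 2 ∂m) ≤
          (1 - c / Real.log ((D : ℝ) + 2) ^ (10 / Real.sqrt (K : ℝ))) *
            Real.sqrt (∫ x, ‖polyFun p x‖ ^ 2 ∂m) := by
  classical
  filter_upwards [AG.almost_gap m hK] with g hg S hS
  obtain ⟨c, c0, hc⟩ := hg
  have e : S = Finset.univ.image g := by
    apply Finset.coe_injective
    rw [hS, Finset.coe_image, Finset.coe_univ, Set.image_univ]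
  refine ⟨c, c0, fun D p hp h0 => ?_⟩
  have h := hc D (polyC p) (polyC_mem hp) (by simpa only [polyC_apply] using h0)
  rw [norm_io, norm_io] at h
  rw [e]
  simpa only [Tp_apply, polyC_apply, avg] using h

end Pool.Agent.Results.MP_923088_al.AlmostGap
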