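import Pool.Agent.P.MP_923088_al.Final

/-! A polylogarithmic quasi-gap with exponent 1.31 for finite topological generating sets of
SU(2). -/

namespace Pool.Agent.Results.MP_923088_al.QuasiGap

open Pool.Agent.P.MP_923088_al MeasureTheory

theorem result [MeasurableSpace SU2] [BorelSpace SU2] (m : Measure SU2) [m.IsHaarMeasure]
    [IsProbabilityMeasure m] (S : Finset SU2)
    (hS : Dense ((Subgroup.closure (S : Set SU2) : Subgroup SU2) : Set SU2)) :
    ∃ c : ℝ, 0 < c ∧ ∀ (D : ℕ) (p : MvPolynomial (Fin 2 × Fin 2) ℂ), p.totalDegree ≤ D →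
      ∫ x, polyFun p x ∂m = 0 →
      Real.sqrt (∫ x, ‖avg S (polyFun p) x‖ ^ 2 ∂m) ≤
        (1 - c / Real.log ((D : ℝ) + 2) ^ (131 / 100 : ℝ)) *
          Real.sqrt (∫ x, ‖polyFun p x‖ ^ 2 ∂m) := by
  classical
  have hinv : ∀ s ∈ symmSet S, s⁻¹ ∈ symmSet S := by
    intro s hs
    unfold symmSet at hs ⊢
    simp only [Finset.mem_union, Finset.mem_image] at hs ⊢
    rcases hs with hs | ⟨t, ht, rfl⟩
    · exact Or.inr ⟨s, hs, rfl⟩
    · exact Or.inl (by rwa [inv_inv])
  have hsub : (S : Set SU2) ⊆ (symmSet S : Set SU2) := by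
    intro s hs
    unfold symmSet
    simp only [Finset.coe_union, Set.mem_union]
    exact Or.inl hs
  obtain ⟨c, c0, hc⟩ := quasi_gap m hinv (hS.mono (Subgroup.closure_mono hsub))
  refine ⟨c, c0, fun D p hp h0 => ?_⟩
  have h := hc D (polyC p) (polyC_mem hp) (by simpa only [polyC_apply] using h0)
  rw [norm_io, norm_io] at h
  simpa only [Tp_apply, polyC_apply, avg] using h

end Pool.Agent.Results.MP_923088_al.QuasiGap
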