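import Pool.Agent.P.MP_923088_al.Transfer

namespace Pool.Agent.Results.MP_923088_al.SubQuadratic

open MeasureTheory Quaternion

theorem result (m : ℕ) (hm : 2 ≤ m)
    [MeasurableSpace (Fin m → Metric.sphere (0 : Quaternion ℝ) 1)]
    [BorelSpace (Fin m → Metric.sphere (0 : Quaternion ℝ) 1)]
    (μ : Measure (Fin m → Metric.sphere (0 : Quaternion ℝ) 1)) [μ.IsHaarMeasure] :
    ∀ᵐ a ∂μ, ∃ C : ℝ, ∀ w : FreeGroup (Fin m), w ≠ 1 →
      Real.exp (-(C * (w.norm : ℝ) ^ (2 - (1 / 2 : ℝ) ^ (3 * m - 3)) * Real.log (w.norm + 2))) ≤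
        min ‖((FreeGroup.lift a w : Metric.sphere (0 : Quaternion ℝ) 1) : Quaternion ℝ) - 1‖
          ‖((FreeGroup.lift a w : Metric.sphere (0 : Quaternion ℝ) 1) : Quaternion ℝ) + 1‖ := by
  filter_upwards [SubQuad.main hm μ] with a ⟨C, hC⟩
  refine ⟨C, fun w hw => le_min ?_ ?_⟩
  · simpa using hC w hw 1
  · simpa using hC w hw (-1)

end Pool.Agent.Results.MP_923088_al.SubQuadratic
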